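import Mathlib

namespace Pool.Agent.MP_af84f5_co

variable {V : Type}

/-- No directed cycle (this forbids loops and pairs of opposite arcs as well). -/
def IsAcyclicDigraph (D : Digraph V) : Prop := ∀ v, ¬ Relation.TransGen D.Adj v v

/-- The digraph obtained from `D` by reversing the arcs in `S`. -/
def reorient (D : Digraph V) (S : Set (V × V)) : Digraph V where
  Adj u v := (D.Adj u v ∧ (u, v) ∉ S) ∨ (D.Adj v u ∧ (v, u) ∈ S)

/-- The acyclic reorientation poset: sets `S` of arcs of `D` whose reversal gives an acyclic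
digraph, ordered by inclusion. -/
abbrev AR (D : Digraph V) : Type :=
  {S : Set (V × V) // S ⊆ {a | D.Adj a.1 a.2} ∧ IsAcyclicDigraph (reorient D S)}

/-- `PeoOn D W`: the subdigraph of `D` induced by `W` is peo-consistent. -/
inductive PeoOn (D : Digraph V) : Set V → Prop
  | small (W : Set V) : W.Subsingleton → PeoOn D W
  | step (W : Set V) (v : V) : v ∈ W →
      ((∀ u ∈ W, ¬ D.Adj u v) ∨ (∀ u ∈ W, ¬ D.Adj v u)) →
      (∀ u ∈ W, ∀ w ∈ W, D.toSimpleGraphInclusive.Adj v u → D.toSimpleGraphInclusive.Adj v w →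
        u ≠ w → D.toSimpleGraphInclusive.Adj u w) →
      PeoOn D (W \ {v}) → PeoOn D W

/-- `D` is peo-consistent. -/
def PeoConsistent (D : Digraph V) : Prop := PeoOn D Set.univ

/-- Stanley's supersolvable lattices. -/
def IsSupersolvable (L : Type) [Lattice L] : Prop :=
  ∃ M : Set L, IsMaxChain (· ≤ ·) M ∧ ∀ K : Set L, IsChain (· ≤ ·) K →
    ∀ x ∈ latticeClosure (M ∪ K), ∀ y ∈ latticeClosure (M ∪ K), ∀ z ∈ latticeClosure (M ∪ K),
      x ⊓ (y ⊔ z) = (x ⊓ y) ⊔ (x ⊓ z)

/-- The poset `P` is (order isomorphic to) a supersolvable lattice. -/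
def IsSupersolvableLattice (P : Type) [PartialOrder P] : Prop :=
  ∃ (L : Type) (_ : Lattice L), Nonempty (P ≃o L) ∧ IsSupersolvable L

end Pool.Agent.MP_af84f5_co
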