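import Mathlib
import Pool.Agent.MP_af84f5_co.Defs

namespace Pool.Agent.MP_af84f5_co

open Relation

variable {V : Type}

theorem asymm_of_acyclic {D : Digraph V} (h : IsAcyclicDigraph D) {u v : V} (h1 : D.Adj u v) :
    ¬ D.Adj v u := fun h2 => h u (TransGen.tail (TransGen.single h1) h2)

theorem irrefl_of_acyclic {D : Digraph V} (h : IsAcyclicDigraph D) (u : V) : ¬ D.Adj u u :=
  fun h2 => h u (TransGen.single h2)

theorem reorient_empty (D : Digraph V) : reorient D ∅ = D := by
  ext u v; simp [reorient]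

theorem compl_acyclic {D : Digraph V} {S : Set (V × V)} (h : IsAcyclicDigraph (reorient D S)) :
    IsAcyclicDigraph (reorient D ({a | D.Adj a.1 a.2} \ S)) := by
  intro v hv
  apply h v
  have e : (reorient D ({a | D.Adj a.1 a.2} \ S)).Adj = Function.swap (reorient D S).Adj := by
    ext p q
    simp only [reorient, Set.mem_sdiff, Set.mem_ofPred_eq, Function.swap]
    tauto
  rw [e] at hv
  exact transGen_swap.mp hv

/-- complement in `AR D` -/
def cpl {D : Digraph V} (S : AR D) : AR D :=
  ⟨{a | D.Adj a.1 a.2} \ S.1, Set.sdiff_subset, compl_acyclic S.2.2⟩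

theorem exists_rank [Finite V] {R : V → V → Prop} (h : ∀ v, ¬ TransGen R v v) :
    ∃ f : V → ℕ, ∀ u v, TransGen R u v → f u < f v := by
  refine ⟨fun v => {u | TransGen R u v}.ncard, fun u v huv => ?_⟩
  apply Set.ncard_lt_ncard _ (Set.toFinite _)
  refine ⟨fun w hw => TransGen.trans hw huv, fun hsub => h u (hsub huv)⟩

/-- accessibility: one can flip a single arc towards a larger acyclic reorientation -/
theorem exists_flip [Finite V] {D : Digraph V} (hD : IsAcyclicDigraph D) (S T : AR D)
    (hST : S < T) : ∃ a ∈ T.1 \ S.1, IsAcyclicDigraph (reorient D (insert a S.1)) := by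
  obtain ⟨f, hf⟩ := exists_rank S.2.2
  have hsub : S.1 ⊆ T.1 := hST.le
  have hne : (T.1 \ S.1).Nonempty := by
    rw [Set.sdiff_nonempty]
    intro h
    exact hST.not_ge h
  obtain ⟨⟨x, y⟩, ha, hmin⟩ := Set.exists_min_image (T.1 \ S.1) (fun a => f a.2 - f a.1)
    (Set.toFinite _) hne
  refine ⟨(x, y), ha, ?_⟩
  have hxy : D.Adj x y := T.2.1 ha.1
  have hyx : ¬ D.Adj y x := asymm_of_acyclic hD hxy
  let R := (reorient D S.1).Adj
  let R0 : V → V → Prop := fun p q => R p q ∧ (p, q) ≠ (x, y)
  have R0R : ∀ {p q}, TransGen R0 p q → TransGen R p q := by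
    intro p q h
    induction h with
    | single h => exact TransGen.single h.1
    | tail _ h ih => exact ih.tail h.1
  have R0R' : ∀ {p q}, ReflTransGen R0 p q → p = q ∨ f p < f q := by
    intro p q h
    rcases (reflTransGen_iff_eq_or_transGen.mp h) with h | h
    · exact Or.inl h.symm
    · exact Or.inr (hf _ _ (R0R h))
  -- no other path from `x` to `y`
  have nopath : ¬ ReflTransGen R0 x y := by
    intro hp
    have key : ∀ q, ReflTransGen R0 x q → ReflTransGen R0 q y →
        ReflTransGen (reorient D T.1).Adj x q := by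
      intro q h1
      induction h1 with
      | refl => intro _; exact ReflTransGen.refl
      | @tail p q h1 h2 ih =>
        intro h3
        refine ReflTransGen.tail (ih (ReflTransGen.head h2 h3)) ?_
        have a1 := R0R' h1
        have a2 := R0R' h3
        have a3 := hf _ _ (TransGen.single h2.1)
        rcases h2.1 with ⟨b1, b2⟩ | ⟨b1, b2⟩
        · left
          refine ⟨b1, fun hT => ?_⟩
          have := hmin (p, q) ⟨hT, b2⟩
          simp only at this
          rcases a1 with a1 | a1 <;> rcases a2 with a2 | a2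
          · exact h2.2 (by rw [a1, a2])
          · subst a1; omega
          · subst a2; omega
          · omega
        · exact Or.inr ⟨b1, hsub b2⟩
    have := key y hp ReflTransGen.refl
    exact T.2.2 y (TransGen.head' (show (reorient D T.1).Adj y x from Or.inr ⟨hxy, ha.1⟩) this)
  have step : ∀ p q, (reorient D (insert (x, y) S.1)).Adj p q → R0 p q ∨ (p = y ∧ q = x) := by
    intro p q h
    rcases h with ⟨b1, b2⟩ | ⟨b1, b2⟩
    · simp only [Set.mem_insert_iff, not_or] at b2
      exact Or.inl ⟨Or.inl ⟨b1, b2.2⟩, b2.1⟩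
    · rcases b2 with b2 | b2
      · right
        simp only [Prod.mk.injEq] at b2
        exact ⟨b2.2, b2.1⟩
      · left
        refine ⟨Or.inr ⟨b1, b2⟩, fun e => ?_⟩
        simp only [Prod.mk.injEq] at e
        obtain ⟨rfl, rfl⟩ := e
        exact hyx b1
  have key : ∀ p q, TransGen (reorient D (insert (x, y) S.1)).Adj p q →
      TransGen R0 p q ∨ (ReflTransGen R0 p y ∧ ReflTransGen R0 x q) := by
    intro p q h
    induction h with
    | single h =>
      rcases step _ _ h with h | ⟨rfl, rfl⟩
      · exact Or.inl (TransGen.single h)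
      · exact Or.inr ⟨ReflTransGen.refl, ReflTransGen.refl⟩
    | tail h1 h2 ih =>
      rcases step _ _ h2 with h | ⟨rfl, rfl⟩
      · rcases ih with ih | ih
        · exact Or.inl (ih.tail h)
        · exact Or.inr ⟨ih.1, ih.2.tail h⟩
      · rcases ih with ih | ih
        · exact Or.inr ⟨ih.to_reflTransGen, ReflTransGen.refl⟩
        · exact absurd ih.2 nopath
  intro v hv
  rcases key v v hv with h | h
  · exact S.2.2 v (R0R h)
  · exact nopath (h.2.trans h.1)

section lattice

variable [Finite V] {D : Digraph V} (hD : IsAcyclicDigraph D) {L : Type} [Lattice L]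
  (e : AR D ≃o L)

include hD e in
theorem singleton_acyclic (hL : IsSupersolvable L) (a : V × V) (ha : D.Adj a.1 a.2) :
    IsAcyclicDigraph (reorient D {a}) := by
  obtain ⟨M, hM, hdist⟩ := hL
  have : Finite L := Finite.of_equiv _ e.toEquiv
  let bot : AR D := ⟨∅, Set.empty_subset _, by rw [reorient_empty]; exact hD⟩
  have hbot : ∀ z : L, e bot ≤ z := by
    intro z
    rw [← e.apply_symm_apply z, e.le_iff_le]
    exact Set.empty_subset _
  have htop : ∀ z : L, z ≤ e (cpl bot) := by
    intro z
    rw [← e.apply_symm_apply z, e.le_iff_le]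
    intro b hb
    exact ⟨(e.symm z).2.1 hb, fun h => h⟩
  have mem_of : ∀ z : L, (∀ m ∈ M, z ≤ m ∨ m ≤ z) → z ∈ M := by
    intro z hz
    have := hM.2 (hM.1.insert fun m hm _ => hz m hm) (Set.subset_insert _ _)
    rw [this]; exact Set.mem_insert _ _
  have hb : e bot ∈ M := mem_of _ fun m _ => Or.inl (hbot m)
  have ht : e (cpl bot) ∈ M := mem_of _ fun m _ => Or.inr (htop m)
  -- largest element of the chain without `a`, smallest with `a`
  obtain ⟨m₁, hm₁⟩ := Set.Finite.exists_maximal (s := {m | m ∈ M ∧ a ∉ (e.symm m).1})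
    (Set.toFinite _) ⟨e bot, hb, by simp [bot]⟩
  obtain ⟨m₂, hm₂⟩ := Set.Finite.exists_minimal (s := {m | m ∈ M ∧ a ∈ (e.symm m).1})
    (Set.toFinite _) ⟨e (cpl bot), ht, by simpa [bot, cpl] using ha⟩
  have cmp : ∀ m ∈ M, ∀ m' ∈ M, m ≤ m' ∨ m' ≤ m := fun m hm m' hm' => hM.1.total hm hm'
  have low : ∀ m ∈ M, a ∉ (e.symm m).1 → m ≤ m₁ := by
    intro m hm h
    rcases cmp m hm m₁ hm₁.1.1 with h1 | h1
    · exact h1
    · exact hm₁.2 ⟨hm, h⟩ h1
  have high : ∀ m ∈ M, a ∈ (e.symm m).1 → m₂ ≤ m := by
    intro m hm h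
    rcases cmp m hm m₂ hm₂.1.1 with h1 | h1
    · exact hm₂.2 ⟨hm, h⟩ h1
    · exact h1
  have sub : ∀ {z w : L}, z ≤ w → (e.symm z).1 ⊆ (e.symm w).1 := fun h => e.symm.monotone h
  have h12 : m₁ < m₂ := by
    rcases cmp m₁ hm₁.1.1 m₂ hm₂.1.1 with h1 | h1
    · refine lt_of_le_of_ne h1 fun h => hm₁.1.2 (h ▸ hm₂.1.2)
    · exact absurd (sub h1 hm₂.1.2) hm₁.1.2
  obtain ⟨b, hb1, hb2⟩ := exists_flip hD (e.symm m₁) (e.symm m₂) (e.symm.strictMono h12)
  let U : AR D := ⟨insert b (e.symm m₁).1,
    Set.insert_subset ((e.symm m₂).2.1 hb1.1) (e.symm m₁).2.1, hb2⟩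
  have hU1 : m₁ ≤ e U := by
    rw [← e.symm_apply_le]; exact Set.subset_insert _ _
  have hU2 : e U ≤ m₂ := by
    rw [← e.le_symm_apply]; exact Set.insert_subset hb1.1 (sub h12.le)
  have hUM : e U ∈ M := by
    refine mem_of _ fun m hm => ?_
    by_cases h : a ∈ (e.symm m).1
    · exact Or.inl (hU2.trans (high m hm h))
    · exact Or.inr ((low m hm h).trans hU1)
  have haU : a ∈ U.1 := by
    by_contra h
    have := sub (low _ hUM (by simpa using h))
    simp only [OrderIso.symm_apply_apply] at this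
    exact hb1.2 (this (Set.mem_insert _ _))
  have hab : a = b := by
    rcases haU with h | h
    · exact h
    · exact absurd h hm₁.1.2
  subst hab
  have hm2U : m₂ = e U := le_antisymm (high _ hUM (by simpa using haU)) hU2
  -- distributivity with the complement of `m₁`
  let c : L := e (cpl (e.symm m₁))
  have hd := hdist {c} Set.subsingleton_singleton.isChain m₂
    (subset_latticeClosure (Or.inl hm₂.1.1)) m₁ (subset_latticeClosure (Or.inl hm₁.1.1)) c
    (subset_latticeClosure (Or.inr rfl))
  have hjoin : m₂ ≤ m₁ ⊔ c := by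
    rw [← e.apply_symm_apply m₂, ← e.le_symm_apply]
    intro z hz
    by_cases h : z ∈ (e.symm m₁).1
    · exact sub le_sup_left h
    · refine sub (le_sup_right (a := m₁) (b := c)) ?_
      simp only [c, OrderIso.symm_apply_apply]
      exact ⟨(e.symm m₂).2.1 hz, h⟩
  rw [inf_eq_left.mpr hjoin, inf_eq_right.mpr h12.le] at hd
  have hx : (e.symm (m₂ ⊓ c)).1 = {a} := by
    have s1 := sub (inf_le_left (a := m₂) (b := c))
    have s2 := sub (inf_le_right (a := m₂) (b := c))
    simp only [c, OrderIso.symm_apply_apply] at s2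
    rw [hm2U] at s1
    simp only [OrderIso.symm_apply_apply] at s1
    rw [← hm2U] at s1
    have s3 : (e.symm (m₂ ⊓ c)).1 ⊆ {a} := by
      intro z hz
      rcases s1 hz with h | h
      · exact h
      · exact absurd h (s2 hz).2
    rcases Set.subset_singleton_iff_eq.mp s3 with h | h
    · exfalso
      have : m₂ ⊓ c ≤ m₁ := by
        rw [← e.symm.le_iff_le]
        change (e.symm (m₂ ⊓ c)).1 ⊆ _
        rw [h]; exact Set.empty_subset _
      rw [sup_eq_left.mpr this] at hd
      exact h12.ne' hd
    · exact h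
  rw [← hx]
  exact (e.symm (m₂ ⊓ c)).2.2

include hD e in
theorem all_acyclic (hL : IsSupersolvable L) (S : Set (V × V)) (hS : S ⊆ {a | D.Adj a.1 a.2}) :
    IsAcyclicDigraph (reorient D S) := by
  have hfin : S.Finite := Set.toFinite _
  induction S, hfin using Set.Finite.induction_on with
  | empty => rw [reorient_empty]; exact hD
  | @insert a S haS _ ih =>
    have ha : D.Adj a.1 a.2 := hS (Set.mem_insert _ _)
    have hS' : S ⊆ {a | D.Adj a.1 a.2} := (Set.subset_insert _ _).trans hS
    let X : AR D := ⟨S, hS', ih hS'⟩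
    let Y : AR D := ⟨{a}, by simpa using ha, singleton_acyclic hD e hL a ha⟩
    let J : AR D := e.symm (e X ⊔ e Y)
    have h1 : X ≤ J := by simp only [J]; rw [e.le_symm_apply]; exact le_sup_left
    have h2 : Y ≤ J := by simp only [J]; rw [e.le_symm_apply]; exact le_sup_right
    have hJ : J.1 = insert a S := by
      apply Set.Subset.antisymm
      · intro b hb
        by_contra hnb
        simp only [Set.mem_insert_iff, not_or] at hnb
        have hbA : D.Adj b.1 b.2 := J.2.1 hb
        let Z : AR D := ⟨{b}, by simpa using hbA, singleton_acyclic hD e hL b hbA⟩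
        have : J ≤ cpl Z := by
          simp only [J]
          rw [e.symm_apply_le]
          refine sup_le (e.monotone ?_) (e.monotone ?_)
          · intro z hz
            exact ⟨hS' hz, fun h => hnb.2 (by rw [← Set.mem_singleton_iff.mp h]; exact hz)⟩
          · intro z hz
            have hz' : z = a := hz
            subst hz'
            exact ⟨ha, fun h => hnb.1 (Set.mem_singleton_iff.mp h).symm⟩
        exact (this hb).2 rfl
      · exact Set.insert_subset (h2 rfl) h1
    rw [← hJ]
    exact J.2.2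

end lattice

theorem forest_of_all_acyclic {D : Digraph V} (hD : IsAcyclicDigraph D)
    (h : ∀ S : Set (V × V), S ⊆ {a | D.Adj a.1 a.2} → IsAcyclicDigraph (reorient D S)) :
    D.toSimpleGraphInclusive.IsAcyclic := by
  rw [SimpleGraph.isAcyclic_iff_forall_adj_isBridge]
  intro v w hvw
  rw [SimpleGraph.isBridge_iff]
  intro hreach
  set G' := D.toSimpleGraphInclusive.deleteEdges {s(v, w)} with hG'
  let want : V → V → Prop := fun p q =>
    (p = w ∧ q = v) ∨ (s(p, q) ≠ s(v, w) ∧ G'.dist q v > G'.dist p v)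
  have want_asymm : ∀ p q, want p q → ¬ want q p := by
    rintro p q (⟨rfl, rfl⟩ | ⟨h1, h2⟩) (⟨h3, h4⟩ | ⟨h3, h4⟩)
    · exact hvw.ne h3
    · exact h3 rfl
    · subst h3 h4; exact h1 rfl
    · omega
  let S : Set (V × V) := {a | D.Adj a.1 a.2 ∧ want a.2 a.1}
  have hR : ∀ p q, D.toSimpleGraphInclusive.Adj p q → want p q → (reorient D S).Adj p q := by
    intro p q hpq hw
    rcases hpq.2 with h1 | h1
    · exact Or.inl ⟨h1, fun h2 => want_asymm _ _ hw h2.2⟩
    · exact Or.inr ⟨h1, h1, hw⟩
  have key : ∀ n z, G'.Reachable z v → G'.dist z v = n → ReflTransGen (reorient D S).Adj v z := by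
    intro n
    induction n using Nat.strong_induction_on with
    | _ n ih =>
      intro z hz hn
      obtain ⟨p, hp⟩ := hz.exists_walk_length_eq_dist
      cases p with
      | nil => exact ReflTransGen.refl
      | @cons _ z' _ hadj p' =>
        have h1 := SimpleGraph.dist_le p'
        simp only [SimpleGraph.Walk.length_cons] at hp
        refine ReflTransGen.tail (ih (G'.dist z' v) (by omega) z' p'.reachable rfl) ?_
        rw [hG', SimpleGraph.deleteEdges_adj] at hadj
        refine hR _ _ hadj.1.symm (Or.inr ⟨?_, by omega⟩)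
        rw [Sym2.eq_swap]
        simpa using hadj.2
  have := key _ w hreach.symm rfl
  exact h S (fun a ha => ha.1) w (TransGen.head' (hR _ _ hvw.symm (Or.inl ⟨rfl, rfl⟩)) this)

theorem all_acyclic_of_forest {D : Digraph V} (hD : IsAcyclicDigraph D)
    (h : D.toSimpleGraphInclusive.IsAcyclic) (S : Set (V × V)) :
    IsAcyclicDigraph (reorient D S) := by
  rw [SimpleGraph.isAcyclic_iff_forall_adj_isBridge] at h
  have adj : ∀ p q, (reorient D S).Adj p q → D.toSimpleGraphInclusive.Adj p q := by
    rintro p q (⟨h1, _⟩ | ⟨h1, _⟩)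
    · exact ⟨fun e => irrefl_of_acyclic hD p (e ▸ h1), Or.inl h1⟩
    · exact ⟨fun e => irrefl_of_acyclic hD p (e ▸ h1), Or.inr h1⟩
  have asym : ∀ p q, (reorient D S).Adj p q → ¬ (reorient D S).Adj q p := by
    rintro p q (⟨h1, h2⟩ | ⟨h1, h2⟩) (⟨h3, h4⟩ | ⟨h3, h4⟩)
    · exact asymm_of_acyclic hD h1 h3
    · exact h2 h4
    · exact h4 h2
    · exact asymm_of_acyclic hD h1 h3
  intro p hp
  obtain ⟨q, hpq, hqp⟩ := TransGen.head'_iff.mp hp
  have hb := h (adj _ _ hpq)
  rw [SimpleGraph.isBridge_iff] at hb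
  apply hb
  have key : ∀ s, ReflTransGen (reorient D S).Adj s p →
      (D.toSimpleGraphInclusive.deleteEdges {s(p, q)}).Reachable s p := by
    intro s hs
    induction hs using ReflTransGen.head_induction_on with
    | refl => exact SimpleGraph.Reachable.refl _
    | @head s t h1 _ ih =>
      by_cases hsp : s = p
      · subst hsp; exact SimpleGraph.Reachable.refl _
      · refine SimpleGraph.Reachable.trans (SimpleGraph.Adj.reachable ?_) ih
        rw [SimpleGraph.deleteEdges_adj]
        refine ⟨adj _ _ h1, ?_⟩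
        simp only [Set.mem_singleton_iff, Sym2.eq_iff, not_or, not_and]
        refine ⟨fun e => absurd e hsp, fun e1 e2 => ?_⟩
        subst e1 e2
        exact asym _ _ hpq h1
  exact (key q hqp).symm

theorem supersolvable_of_forest {D : Digraph V} (hD : IsAcyclicDigraph D)
    (h : D.toSimpleGraphInclusive.IsAcyclic) : IsSupersolvableLattice (AR D) := by
  refine ⟨Set.Iic ({a | D.Adj a.1 a.2} : Set (V × V)), inferInstance, ⟨?_⟩, ?_⟩
  · exact
      { toFun := fun S => ⟨S.1, S.2.1⟩
        invFun := fun S => ⟨S.1, S.2, all_acyclic_of_forest hD h _⟩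
        left_inv := fun _ => rfl
        right_inv := fun _ => rfl
        map_rel_iff' := Iff.rfl }
  · refine ⟨_, maxChain_spec, fun K _ x _ y _ z _ => ?_⟩
    apply Subtype.ext
    exact inf_sup_left x.1 y.1 z.1

theorem supersolvable_iff_forest [Finite V] {D : Digraph V} (hD : IsAcyclicDigraph D) :
    IsSupersolvableLattice (AR D) ↔ D.toSimpleGraphInclusive.IsAcyclic := by
  refine ⟨?_, supersolvable_of_forest hD⟩
  rintro ⟨L, _, ⟨e⟩, hL⟩
  exact forest_of_all_acyclic hD (all_acyclic hD e hL)

theorem exists_leaf [Finite V] {G : SimpleGraph V} (h : G.IsAcyclic) (W : Set V)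
    (hW : W.Nonempty) : ∃ v ∈ W, ∀ u ∈ W, ∀ w ∈ W, G.Adj v u → G.Adj v w → u = w := by
  have : Nonempty W := hW.to_subtype
  have hH := h.induce W
  obtain ⟨u, v, p, hp, hmax⟩ := SimpleGraph.Walk.exists_isPath_forall_isPath_length_le_length (G.induce W)
  have key : ∀ w : W, (G.induce W).Adj u w → w = p.snd := by
    intro w hadj
    apply hH.eq_snd_of_adj_start hp hadj
    by_contra hw
    have := hmax _ _ (p.cons hadj.symm) (hp.cons hw)
    simp at this
  refine ⟨u, u.2, fun a ha b hb h1 h2 => ?_⟩
  have e1 := key ⟨a, ha⟩ h1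
  have e2 := key ⟨b, hb⟩ h2
  exact congrArg Subtype.val (e1.trans e2.symm)

theorem peo_of_forest [Finite V] {D : Digraph V} (hD : IsAcyclicDigraph D)
    (h : D.toSimpleGraphInclusive.IsAcyclic) : PeoConsistent D := by
  have key : ∀ n, ∀ W : Set V, W.ncard = n → PeoOn D W := by
    intro n
    induction n with
    | zero =>
      intro W hW
      rw [Set.ncard_eq_zero] at hW
      subst hW
      exact PeoOn.small _ Set.subsingleton_empty
    | succ n ih =>
      intro W hW
      have hne : W.Nonempty := Set.nonempty_of_ncard_ne_zero (by omega)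
      obtain ⟨v, hv, hleaf⟩ := exists_leaf h W hne
      refine PeoOn.step W v hv ?_ ?_ (ih _ ?_)
      · by_contra hcon
        push Not at hcon
        obtain ⟨⟨u, hu, h1⟩, ⟨w, hw, h2⟩⟩ := hcon
        have := hleaf u hu w hw ⟨fun e => irrefl_of_acyclic hD v (e ▸ h1), Or.inr h1⟩
          ⟨fun e => irrefl_of_acyclic hD v (e ▸ h2), Or.inl h2⟩
        subst this
        exact asymm_of_acyclic hD h1 h2
      · intro u hu w hw h1 h2 hne
        exact absurd (hleaf u hu w hw h1 h2) hne
      · rw [Set.ncard_sdiff_singleton_of_mem hv]; omega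
  exact key _ _ rfl

/-- the transitive tournament on three vertices -/
def tri : Digraph (Fin 3) where
  Adj u v := u < v

theorem tri_acyclic : IsAcyclicDigraph tri := by
  intro v hv
  have : ∀ u w, TransGen tri.Adj u w → u < w := by
    intro u w h
    induction h with
    | single h => exact h
    | tail _ h ih => exact lt_trans ih h
  exact lt_irrefl _ (this v v hv)

theorem tri_adj (u w : Fin 3) (h : u ≠ w) : tri.toSimpleGraphInclusive.Adj u w :=
  ⟨h, lt_or_gt_of_ne h⟩

theorem tri_peo : PeoConsistent tri := by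
  refine PeoOn.step _ 0 trivial (Or.inl fun u _ h => ?_) (fun u _ w _ _ _ h => tri_adj u w h) ?_
  · exact absurd h (Fin.not_lt_zero u)
  refine PeoOn.step _ 1 (by simp) (Or.inl fun u hu h => ?_) (fun u _ w _ _ _ h => tri_adj u w h) ?_
  · have : u < 1 := h
    have h0 : u ≠ 0 := hu.2
    omega
  refine PeoOn.small _ fun a ha b hb => ?_
  have h1 : a ≠ 0 := ha.1.2
  have h2 : a ≠ 1 := ha.2
  have h3 : b ≠ 0 := hb.1.2
  have h4 : b ≠ 1 := hb.2
  omega

theorem tri_not_forest : ¬ tri.toSimpleGraphInclusive.IsAcyclic := by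
  intro h
  obtain ⟨v, -, hv⟩ := exists_leaf h Set.univ Set.univ_nonempty
  have h1 : ∀ v : Fin 3, v ≠ v + 1 := by decide
  have h2 : ∀ v : Fin 3, v ≠ v + 2 := by decide
  have h3 : ∀ v : Fin 3, v + 1 ≠ v + 2 := by decide
  exact h3 v (hv (v + 1) trivial (v + 2) trivial (tri_adj _ _ (h1 v)) (tri_adj _ _ (h2 v)))

end Pool.Agent.MP_af84f5_co
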